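import Pool.Agent.helper5.SYM.SpecA
import Pool.Agent.helper89.CT.JZ2

/-! Row sy:FON. -/

set_option autoImplicit false
set_option linter.unusedSimpArgs false

namespace Pool.Agent.SYM
open Finset CT Polynomial

section
variable {D : Type} [DecidableEq D]

/-- The indicator of the strand of `x`. -/
def FON_ind (e : D → D) (x : D) : D → ZMod 2 := fun d => if d = x ∨ d = e x then 1 else 0

/-- An additional strand. -/
def FON_add (f : D → D) (p q : D) : D → D := fun d =>
  if d = p then q else if d = q then p else f d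

theorem FON_add_join (f : D → D) {p q a b : D} (hap : a ≠ p) (haq : a ≠ q) (hbp : b ≠ p)
    (hbq : b ≠ q) : join (FON_add f p q) a b = FON_add (join f a b) p q := by
  funext z
  have h1 := hap.symm
  have h2 := haq.symm
  have h3 := hbp.symm
  have h4 := hbq.symm
  by_cases z1 : z = p
  · subst z1
    simp [join, FON_add, h1, h2, h3, h4]
  by_cases z2 : z = q
  · subst z2
    simp [join, FON_add, h1, h2, h3, h4, z1]
  simp [join, FON_add, z1, z2, hap, haq, hbp, hbq]

theorem FON_add_lp (f : D → D) {p q a b : D} (hap : a ≠ p) (haq : a ≠ q) :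
    CT.lp (FON_add f p q) a b = CT.lp f a b := by
  simp [CT.lp, FON_add, hap, haq]

omit [DecidableEq D] in
theorem FON_ne1 (e : D → D) {x p : D} (hx : e x ≠ x) (hp : e p = p) : x ≠ p := by
  rintro rfl; exact hx hp

omit [DecidableEq D] in
theorem FON_ne2 (e : D → D) (he : ∀ d, e (e d) = d) {x p : D} (hx : e x ≠ x) (hp : e p = p) :
    e x ≠ p := by
  intro h
  apply hx
  have h2 : e (e x) = e x := by rw [h, hp]
  rw [he] at h2
  exact h2.symm

theorem FON_cut_inv (e : D → D) (he : ∀ d, e (e d) = d) {x p q : D} (hx : e x ≠ x)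
    (hp : e p = p) (hq : e q = q) (hpq : p ≠ q) : ∀ d, cut e x p q (cut e x p q d) = d := by
  intro d
  have hxp := FON_ne1 e hx hp
  have hxq := FON_ne1 e hx hq
  have hexp := FON_ne2 e he hx hp
  have hexq := FON_ne2 e he hx hq
  by_cases d1 : d = x
  · subst d1
    simp [cut, hxp.symm]
  by_cases d2 : d = p
  · subst d2
    simp [cut, hxp.symm]
  by_cases d3 : d = e x
  · subst d3
    simp [cut, hx, hexp, hxq.symm, hpq.symm, hexq.symm]
  by_cases d4 : d = q
  · subst d4
    simp [cut, hx, hexp, hxq.symm, hpq.symm, hexq.symm]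
  have i1 : e d ≠ x := fun h => d3 (by rw [← h, he])
  have i2 : e d ≠ p := fun h => d2 (by rw [← he d, h, hp])
  have i3 : e d ≠ e x := fun h => d1 ((inj_of he).1 h)
  have i4 : e d ≠ q := fun h => d4 (by rw [← he d, h, hq])
  simp [cut, d1, d2, d3, d4, i1, i2, i3, i4, he]

/-- The marked strand becomes a loop. -/
theorem FON_J1 (e : D → D) (he : ∀ d, e (e d) = d) {x p q : D} (hx : e x ≠ x)
    (hp : e p = p) (hq : e q = q) (hpq : p ≠ q) :
    CT.lp e x (e x) = 1 ∧ CT.lp (cut e x p q) x (e x) = 0 ∧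
      join (cut e x p q) x (e x) = FON_add (join e x (e x)) p q := by
  have hxp := FON_ne1 e hx hp
  have hxq := FON_ne1 e hx hq
  have hexp := FON_ne2 e he hx hp
  have hexq := FON_ne2 e he hx hq
  have s1 := hxp.symm
  have s2 := hxq.symm
  have s3 := hexp.symm
  have s4 := hexq.symm
  have s5 := hx.symm
  have s6 := hpq.symm
  refine ⟨by simp [CT.lp], by simp [CT.lp, cut, s3], ?_⟩
  funext d
  by_cases d1 : d = x
  · subst d1
    simp [join, FON_add, hxp, hxq]
  by_cases d2 : d = p
  · subst d2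
    simp [join, FON_add, cut, hxp, hxq, s1, s2, s3, hx, s6, hexp]
  by_cases d3 : d = e x
  · subst d3
    simp [join, FON_add, hexp, hexq]
  by_cases d4 : d = q
  · subst d4
    simp [join, FON_add, cut, hxp, hxq, s1, s2, s3, s4, hx, s6, hexp, hexq]
  have i1 : e d ≠ x := fun h => d3 (by rw [← h, he])
  have i3 : e d ≠ e x := fun h => d1 ((inj_of he).1 h)
  simp [join, FON_add, cut, d1, d2, d3, d4, i1, i3]

/-- The marked strand is prolonged at `x`. -/
theorem FON_J2 (e : D → D) (he : ∀ d, e (e d) = d) {x p q b : D} (hx : e x ≠ x)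
    (hp : e p = p) (hq : e q = q) (hpq : p ≠ q) (hb : e b ≠ b) (h1 : b ≠ x) (h2 : b ≠ e x) :
    CT.lp e x b = 0 ∧ CT.lp (cut e x p q) x b = 0 ∧ join e x b (e b) ≠ e b ∧
      join (cut e x p q) x b = cut (join e x b) (e b) p q ∧
      jv e (FON_ind e x) x b 0 = FON_ind (join e x b) (e b) := by
  have hxp := FON_ne1 e hx hp
  have hxq := FON_ne1 e hx hq
  have hexp := FON_ne2 e he hx hp
  have hexq := FON_ne2 e he hx hq
  have hbp := FON_ne1 e hb hp
  have hbq := FON_ne1 e hb hq
  have hebp := FON_ne2 e he hb hp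
  have hebq := FON_ne2 e he hb hq
  have s1 := hxp.symm
  have s2 := hxq.symm
  have s3 := hexp.symm
  have s4 := hexq.symm
  have s5 := hx.symm
  have s6 := hpq.symm
  have t1 := hbp.symm
  have t2 := hbq.symm
  have t3 := hebp.symm
  have t4 := hebq.symm
  have t5 := hb.symm
  have u1 := h1.symm
  have u2 := h2.symm
  have v1 : e b ≠ x := fun h => h2 (by rw [← h, he])
  have v2 := v1.symm
  have v3 : e b ≠ e x := fun h => h1 ((inj_of he).1 h)
  have v4 := v3.symm
  have w1 : join e x b (e b) = e x := by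
    simp [join, v1, hb, he, h1]
  refine ⟨by simp [CT.lp, u2], by simp [CT.lp, cut, t1], ?_, ?_, ?_⟩
  · rw [w1]
    exact v4
  · funext d
    by_cases d1 : d = x
    · subst d1
      simp [join, cut, hxp, hxq, v1, v2, h1, v4, u1, s5, he, hb, w1]
    by_cases d2 : d = p
    · subst d2
      simp [join, cut, hxp, hxq, s1, t1, t3, h1, h2, hbp, hbq]
    by_cases d3 : d = e x
    · subst d3
      simp [join, cut, hxp, hxq, s1, s2, s3, s4, s6, t1, t2, t3, t4, h1, h2, hbp, hbq, v1, v2, v3,
        v4, hx, hb, u1, u2, he, hexp, hexq]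
    by_cases d4 : d = q
    · subst d4
      simp [join, cut, hxp, hxq, s1, s2, s3, s4, s6, t1, t2, t3, t4, h1, h2, hbp, hbq, v1, v2, v3,
        v4, hx, hb, u1, u2, he, hexp, hexq]
    by_cases d5 : d = b
    · subst d5
      simp [join, cut, hxp, hxq, s1, s2, s3, s4, s6, t1, t2, t3, t4, h1, h2, hbp, hbq, v1, v2, v3,
        v4, hx, hb, u1, u2, he, hexp, hexq, t5]
    by_cases d6 : d = e b
    · subst d6
      simp [join, cut, hxp, hxq, s1, s2, s3, s4, s6, t1, t2, t3, t4, h1, h2, hbp, hbq, v1, v2, v3,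
        v4, hx, hb, u1, u2, he, hexp, hexq, t5, hebp, hebq]
    have i1 : e d ≠ x := fun h => d3 (by rw [← h, he])
    have i2 : e d ≠ b := fun h => d6 (by rw [← h, he])
    simp [join, cut, d1, d2, d3, d4, d5, d6, i1, i2, w1]
    simp [v1, hb, he, h1, d3]
  · funext d
    unfold FON_ind
    rw [w1]
    by_cases d1 : d = x
    · subst d1
      simp [jv, v2, s5]
    by_cases d3 : d = e x
    · subst d3
      simp [jv, hx, u2, he, h1, h2]
    by_cases d5 : d = b
    · subst d5
      simp [jv, t5, h2]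
    by_cases d6 : d = e b
    · subst d6
      simp [jv, hb, v1, v3, he, h1]
    have i1 : e d ≠ x := fun h => d3 (by rw [← h, he])
    have i2 : e d ≠ b := fun h => d6 (by rw [← h, he])
    simp [jv, d1, d3, d5, d6, i1, i2]

/-- The marked strand is prolonged at `e x`. -/
theorem FON_J3 (e : D → D) (he : ∀ d, e (e d) = d) {x p q b : D} (hx : e x ≠ x)
    (hp : e p = p) (hq : e q = q) (hpq : p ≠ q) (hb : e b ≠ b) (h1 : b ≠ x) (h2 : b ≠ e x) :
    CT.lp e (e x) b = 0 ∧ CT.lp (cut e x p q) (e x) b = 0 ∧ join e (e x) b x ≠ x ∧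
      join (cut e x p q) (e x) b = cut (join e (e x) b) x p q ∧
      jv e (FON_ind e x) (e x) b 0 = FON_ind (join e (e x) b) x := by
  have hxp := FON_ne1 e hx hp
  have hxq := FON_ne1 e hx hq
  have hexp := FON_ne2 e he hx hp
  have hexq := FON_ne2 e he hx hq
  have hbp := FON_ne1 e hb hp
  have hbq := FON_ne1 e hb hq
  have hebp := FON_ne2 e he hb hp
  have hebq := FON_ne2 e he hb hq
  have s1 := hxp.symm
  have s2 := hxq.symm
  have s3 := hexp.symm
  have s4 := hexq.symm
  have s5 := hx.symm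
  have s6 := hpq.symm
  have t1 := hbp.symm
  have t2 := hbq.symm
  have t3 := hebp.symm
  have t4 := hebq.symm
  have t5 := hb.symm
  have u1 := h1.symm
  have u2 := h2.symm
  have v1 : e b ≠ x := fun h => h2 (by rw [← h, he])
  have v2 := v1.symm
  have v3 : e b ≠ e x := fun h => h1 ((inj_of he).1 h)
  have v4 := v3.symm
  have w1 : join e (e x) b x = e b := by
    simp [join, s5, u1]
  refine ⟨by simp [CT.lp, he, u1], by simp [CT.lp, cut, hx, hexp, t2], ?_, ?_, ?_⟩
  · rw [w1]
    exact v1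
  · funext d
    by_cases d1 : d = x
    · subst d1
      simp [join, cut, s5, u1, s3, t1]
    by_cases d2 : d = p
    · subst d2
      simp [join, cut, s1, s3, s5, t1, u1]
    by_cases d3 : d = e x
    · subst d3
      simp [join, cut, hx, hexp, hexq, s5, u1, v4]
    by_cases d4 : d = q
    · subst d4
      simp [join, cut, s2, s4, s5, s6, t2, t4, u1, hx, hexp, h1, h2, hbp, hbq]
    by_cases d5 : d = b
    · subst d5
      simp [join, cut, h1, hbp, hbq, s5, t5, u1, v4, v3, h2]
    by_cases d6 : d = e b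
    · subst d6
      simp [join, cut, v1, v3, hebp, hebq, hb, he, h2, hx, hexp, s5, u1]
    have i1 : e d ≠ e x := fun h => d1 ((inj_of he).1 h)
    have i2 : e d ≠ b := fun h => d6 (by rw [← h, he])
    simp [join, cut, d1, d2, d3, d4, d5, d6, i1, i2, s5, u1]
  · funext d
    unfold FON_ind
    rw [w1]
    by_cases d1 : d = x
    · subst d1
      simp [jv, s5, u1, h1, h2]
    by_cases d3 : d = e x
    · subst d3
      simp [jv, hx, v4]
    by_cases d5 : d = b
    · subst d5
      simp [jv, t5, h1]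
    by_cases d6 : d = e b
    · subst d6
      simp [jv, hb, v1, v3, he, h2]
    have i1 : e d ≠ e x := fun h => d1 ((inj_of he).1 h)
    have i2 : e d ≠ b := fun h => d6 (by rw [← h, he])
    simp [jv, d1, d3, d5, d6, i1, i2]

/-- The marked strand is not touched. -/
theorem FON_J4 (e : D → D) (he : ∀ d, e (e d) = d) {x p q a b : D} (hx : e x ≠ x)
    (hp : e p = p) (hq : e q = q) (hpq : p ≠ q) (ha : e a ≠ a) (hb : e b ≠ b)
    (h1 : b ≠ x) (h2 : b ≠ e x) (h3 : a ≠ x) (h4 : a ≠ e x) :
    CT.lp e a b = CT.lp (cut e x p q) a b ∧ join e a b x ≠ x ∧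
      join (cut e x p q) a b = cut (join e a b) x p q ∧
      jv e (FON_ind e x) a b 0 = FON_ind (join e a b) x := by
  have hxp := FON_ne1 e hx hp
  have hxq := FON_ne1 e hx hq
  have hexp := FON_ne2 e he hx hp
  have hexq := FON_ne2 e he hx hq
  have hap := FON_ne1 e ha hp
  have haq := FON_ne1 e ha hq
  have heap := FON_ne2 e he ha hp
  have heaq := FON_ne2 e he ha hq
  have hbp := FON_ne1 e hb hp
  have hbq := FON_ne1 e hb hq
  have hebp := FON_ne2 e he hb hp
  have hebq := FON_ne2 e he hb hq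
  have v1 : e b ≠ x := fun h => h2 (by rw [← h, he])
  have v3 : e b ≠ e x := fun h => h1 ((inj_of he).1 h)
  have v5 : e a ≠ x := fun h => h4 (by rw [← h, he])
  have v7 : e a ≠ e x := fun h => h3 ((inj_of he).1 h)
  have w1 : join e a b x = e x := by
    simp [join, h1.symm, h2.symm, h3.symm, h4.symm]
  refine ⟨by simp [CT.lp, cut, h3, hap, h4, haq], ?_, ?_, ?_⟩
  · rw [w1]
    exact hx
  · funext d
    unfold cut
    rw [w1]
    by_cases d1 : d = x
    · subst d1
      simp [join, h1.symm, h3.symm, hap.symm, hbp.symm]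
    by_cases d2 : d = p
    · subst d2
      simp [join, d1, hap.symm, hbp.symm, h1.symm, h3.symm]
    by_cases d3 : d = e x
    · subst d3
      simp [join, d1, hexp, haq.symm, hbq.symm, h2.symm, h4.symm]
    by_cases d4 : d = q
    · subst d4
      simp [join, d1, d2, d3, haq.symm, hbq.symm, h2.symm, h4.symm]
    simp [join, d1, d2, d3, d4, h1, h2, h3, h4, hap, haq, hbp, hbq]
  · funext d
    unfold FON_ind
    rw [w1]
    by_cases d1 : d = x
    · subst d1
      simp [jv, h1.symm, h2.symm, h3.symm, h4.symm]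
    by_cases d3 : d = e x
    · subst d3
      simp [jv, h1.symm, h2.symm, h3.symm, h4.symm, he]
    simp [jv, d1, d3, h1, h2, h3, h4]

theorem FON_jv_symm (e : D → D) (α : D → ZMod 2) {a b : D} (hab : a ≠ b) :
    jv e α a b 0 = jv e α b a 0 := by
  funext z
  unfold jv
  by_cases h1 : e z = a
  · have h2 : e z ≠ b := fun h => hab (by rw [← h1, h])
    simp [h1, hab, or_comm]
  · by_cases h2 : e z = b
    · simp [h2, hab.symm, or_comm]
    · simp [h1, h2, or_comm]

/-- One join. -/
theorem FON_one (e : D → D) (he : ∀ d, e (e d) = d) {x p q a b : D} (hx : e x ≠ x)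
    (hp : e p = p) (hq : e q = q) (hpq : p ≠ q) (ha : e a ≠ a) (hb : e b ≠ b) (hab : a ≠ b) :
    (CT.lp e a b = 1 ∧ FON_ind e x a = 1 ∧ CT.lp (cut e x p q) a b = 0 ∧
      join (cut e x p q) a b = FON_add (join e a b) p q) ∨
    (CT.lp e a b = CT.lp (cut e x p q) a b ∧ (e a = b → FON_ind e x a = 0) ∧
      ∃ x', join e a b x' ≠ x' ∧ join (cut e x p q) a b = cut (join e a b) x' p q ∧
        jv e (FON_ind e x) a b 0 = FON_ind (join e a b) x') := by
  have hc := FON_cut_inv e he hx hp hq hpq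
  by_cases h1 : a = x
  · subst h1
    by_cases h2 : b = e a
    · subst h2
      obtain ⟨g1, g2, g3⟩ := FON_J1 e he hx hp hq hpq
      exact Or.inl ⟨g1, by simp [FON_ind], g2, g3⟩
    · obtain ⟨g1, g2, g3, g4, g5⟩ := FON_J2 e he hx hp hq hpq hb hab.symm h2
      exact Or.inr ⟨by rw [g1, g2], fun h => absurd h.symm h2, e b, g3, g4, g5⟩
  by_cases h2 : a = e x
  · subst h2
    by_cases h3 : b = x
    · subst h3
      obtain ⟨g1, g2, g3⟩ := FON_J1 e he hx hp hq hpq
      rw [lp_symm e he, lp_symm _ hc, join_symm e he, join_symm _ hc]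
      exact Or.inl ⟨g1, by simp [FON_ind], g2, g3⟩
    · obtain ⟨g1, g2, g3, g4, g5⟩ := FON_J3 e he hx hp hq hpq hb h3 hab.symm
      exact Or.inr ⟨by rw [g1, g2], fun h => absurd (by rw [← h, he]) h3, x, g3, g4, g5⟩
  by_cases h3 : b = x
  · subst h3
    rw [lp_symm e he, lp_symm _ hc, join_symm e he, join_symm _ hc, FON_jv_symm e _ hab]
    obtain ⟨g1, g2, g3, g4, g5⟩ := FON_J2 e he hx hp hq hpq ha hab h2
    exact Or.inr ⟨by rw [g1, g2], fun h => absurd (by rw [← h, he]) h2, e a, g3, g4, g5⟩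
  by_cases h4 : b = e x
  · subst h4
    rw [lp_symm e he, lp_symm _ hc, join_symm e he, join_symm _ hc, FON_jv_symm e _ hab]
    obtain ⟨g1, g2, g3, g4, g5⟩ := FON_J3 e he hx hp hq hpq ha h1 h2
    exact Or.inr ⟨by rw [g1, g2], fun h => absurd ((inj_of he).1 h) h1, x, g3, g4, g5⟩
  obtain ⟨g1, g2, g3, g4⟩ := FON_J4 e he hx hp hq hpq ha hb h3 h4 h1 h2
  exact Or.inr ⟨g1, fun _ => by simp [FON_ind, h1, h2], x, g2, g3, g4⟩

end

section
variable {W : Type} [DecidableEq W]

theorem FON_join_fix (e : W × Fin 4 → W × Fin 4) {a b p : W × Fin 4} (hp : e p = p)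
    (ha : a ≠ p) (hb : b ≠ p) : join e a b p = p := by
  simp [join, hp, ha.symm, hb.symm]

/-- The smoothing of one vertex. -/
theorem FON_two (e : W × Fin 4 → W × Fin 4) (he : ∀ d, e (e d) = d) {x p q : W × Fin 4} {u : W}
    (t : Fin 3) (hx : e x ≠ x) (hp : e p = p) (hq : e q = q) (hpq : p ≠ q)
    (hu : ∀ i, e (u, i) ≠ (u, i)) :
    (ls e u t = ls (cut e x p q) u t + 1 ∧ (ls (cut e x p q) u t = 0 → vl e (FON_ind e x) u t = 1) ∧
      sm (cut e x p q) u t = FON_add (sm e u t) p q) ∨
    (ls e u t = ls (cut e x p q) u t ∧ vl e (FON_ind e x) u t = 0 ∧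
      ∃ x', sm e u t x' ≠ x' ∧ sm (cut e x p q) u t = cut (sm e u t) x' p q ∧
        smv e (FON_ind e x) u t = FON_ind (sm e u t) x') := by
  obtain ⟨h1, h2, h3, h4, h5, h6⟩ := JZ2_pr t
  have k : ∀ {i j : Fin 4}, i ≠ j → (u, i) ≠ (u, j) := by
    intro i j hij h
    exact hij (Prod.mk.inj h).2
  have he1 := join_invol e he (k h1) (hu _) (hu _)
  have a3 := JZ2_ne e he (k h1) (k h3) (k h4) (hu _)
  have a4 := JZ2_ne e he (k h1) (k h5) (k h6) (hu _)
  have kp : ∀ i, (u, i) ≠ p := fun i h => hu i (by rw [h, hp])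
  have kq : ∀ i, (u, i) ≠ q := fun i h => hu i (by rw [h, hq])
  have p1 := FON_join_fix e hp (kp (pr t).1) (kp (pr t).2.1)
  have q1 := FON_join_fix e hq (kq (pr t).1) (kq (pr t).2.1)
  unfold ls sm smv vl
  rcases FON_one e he hx hp hq hpq (hu (pr t).1) (hu (pr t).2.1) (k h1) with
    ⟨b1, b2, b3, b4⟩ | ⟨b1, b2, x', b3, b4, b5⟩
  · left
    rw [b1, b3, b4, FON_add_lp _ (kp _) (kq _), FON_add_join _ (kp _) (kq _) (kp _) (kq _)]
    refine ⟨by ring, ?_, rfl⟩
    intro h
    have e1 : e (u, (pr t).1) = (u, (pr t).2.1) := by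
      by_contra hh
      simp [CT.lp, hh] at b1
    have e2 : join e (u, (pr t).1) (u, (pr t).2.1) (u, (pr t).2.2.1) ≠ (u, (pr t).2.2.2) := by
      intro hh
      simp [CT.lp, hh] at h
    rw [if_pos e1, if_neg e2, b2, add_zero]
  · rw [b4, b5, ← b1]
    have f1 : (if e (u, (pr t).1) = (u, (pr t).2.1) then FON_ind e x (u, (pr t).1) else 0) = 0 := by
      split_ifs with h
      · exact b2 h
      · rfl
    rw [f1, zero_add]
    rcases FON_one _ he1 b3 p1 q1 hpq a3 a4 (k h2) with
      ⟨c1, c2, c3, c4⟩ | ⟨c1, c2, x'', c3, c4, c5⟩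
    · left
      rw [c1, c3, c4]
      refine ⟨by ring, ?_, rfl⟩
      intro _
      have e1 : join e (u, (pr t).1) (u, (pr t).2.1) (u, (pr t).2.2.1) = (u, (pr t).2.2.2) := by
        by_contra hh
        simp [CT.lp, hh] at c1
      rw [if_pos e1, c2]
    · right
      rw [← c1, c4, c5]
      refine ⟨rfl, ?_, x'', c3, rfl, rfl⟩
      split_ifs with h
      · exact c2 h
      · rfl

theorem FON_NL (L : List W) (f : W × Fin 4 → W × Fin 4) (p q : W × Fin 4) (hp : p.1 ∉ L)
    (hq : q.1 ∉ L) :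
    NL (fun e' => if e' p = q then 1 else 0) L (FON_add f p q) = NL (fun _ => 1) L f := by
  induction L generalizing f with
  | nil => simp [NL, FON_add]
  | cons u L ih =>
    have hp' : p.1 ∉ L := fun h => hp (List.mem_cons_of_mem _ h)
    have hq' : q.1 ∉ L := fun h => hq (List.mem_cons_of_mem _ h)
    have kp : ∀ i : Fin 4, (u, i) ≠ p := fun i h => hp (by rw [← h]; exact List.mem_cons_self ..)
    have kq : ∀ i : Fin 4, (u, i) ≠ q := fun i h => hq (by rw [← h]; exact List.mem_cons_self ..)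
    show (∑ t : Fin 3, if ls (FON_add f p q) u t = 0 then
      NL (fun e' => if e' p = q then 1 else 0) L (sm (FON_add f p q) u t) else 0) =
      ∑ t : Fin 3, if ls f u t = 0 then NL (fun _ => 1) L (sm f u t) else 0
    refine Finset.sum_congr rfl fun t _ => ?_
    have e1 : sm (FON_add f p q) u t = FON_add (sm f u t) p q := by
      unfold sm
      rw [FON_add_join _ (kp _) (kq _) (kp _) (kq _), FON_add_join _ (kp _) (kq _) (kp _) (kq _)]
    have e2 : ls (FON_add f p q) u t = ls f u t := by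
      unfold ls
      rw [FON_add_join _ (kp _) (kq _) (kp _) (kq _), FON_add_lp _ (kp _) (kq _),
        FON_add_lp _ (kp _) (kq _)]
    rw [e1, e2, ih _ hp' hq']

theorem FON_main (L : List W) (e : W × Fin 4 → W × Fin 4) (x p q : W × Fin 4)
    (hn : L.Nodup) (he : ∀ d, e (e d) = d) (hL : ∀ u ∈ L, ∀ i, e (u, i) ≠ (u, i))
    (hx : e x ≠ x) (hp : e p = p) (hq : e q = q) (hpq : p ≠ q) (hpL : p.1 ∉ L) (hqL : q.1 ∉ L) :
    F1 L e (FON_ind e x) = NL (fun e' => if e' p = q then 1 else 0) L (cut e x p q) := by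
  induction L generalizing e x with
  | nil =>
    have hxp := FON_ne1 e hx hp
    have hxq := FON_ne1 e hx hq
    simp [F1, NL, cut, hxp.symm, hxq]
  | cons u L ih =>
    have hp' : p.1 ∉ L := fun h => hpL (List.mem_cons_of_mem _ h)
    have hq' : q.1 ∉ L := fun h => hqL (List.mem_cons_of_mem _ h)
    have hu := hL u (List.mem_cons_self ..)
    rw [List.nodup_cons] at hn
    show (∑ t : Fin 3, if ls e u t = 0 then F1 L (sm e u t) (smv e (FON_ind e x) u t)
      else if ls e u t = 1 then vl e (FON_ind e x) u t * NL (fun _ => 1) L (sm e u t) else 0) =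
      ∑ t : Fin 3, if ls (cut e x p q) u t = 0 then
        NL (fun e' => if e' p = q then 1 else 0) L (sm (cut e x p q) u t) else 0
    refine Finset.sum_congr rfl fun t _ => ?_
    rcases FON_two e he t hx hp hq hpq hu with ⟨g1, g2, g3⟩ | ⟨g1, g2, x', g3, g4, g5⟩
    · rw [g1, g3, FON_NL L _ p q hp' hq']
      by_cases h0 : ls (cut e x p q) u t = 0
      · rw [h0, g2 h0]
        simp
      · rw [if_neg (by omega), if_neg (by omega), if_neg h0]
    · obtain ⟨s1, s2⟩ := JZ2_sm e he hu t
      have sp : sm e u t p = p := by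
        have kp : ∀ i : Fin 4, (u, i) ≠ p := fun i h => hu i (by rw [h, hp])
        exact FON_join_fix _ (FON_join_fix e hp (kp _) (kp _)) (kp _) (kp _)
      have sq : sm e u t q = q := by
        have kq : ∀ i : Fin 4, (u, i) ≠ q := fun i h => hu i (by rw [h, hq])
        exact FON_join_fix _ (FON_join_fix e hq (kq _) (kq _)) (kq _) (kq _)
      rw [g4, g5, g2, ← g1, ih (sm e u t) x' hn.2 s1 ?_ g3 sp sq hp' hq']
      · by_cases h0 : ls e u t = 0
        · simp [h0]
        · simp [h0]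
      · intro v hv i
        apply s2 (v, i)
        · rintro rfl
          exact hn.1 hv
        · exact hL v (List.mem_cons_of_mem _ hv) i

end

theorem FON : FON_stmt := by
  intro W _ L e x p q hn he hL hx hp hq hpq hpL hqL
  exact FON_main L e x p q hn he hL hx hp hq hpq hpL hqL

end Pool.Agent.SYM
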